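import Pool.Agent.S5.D.Rect

/-!
# Lattice sums as integrals over a product of flat contours, several variables
-/

set_option autoImplicit false

namespace Pool.Agent.S5

open Complex MeasureTheory
open scoped Interval

/-- The domain of the variables. -/
def Dm (M k0 : ℕ) (d : ℝ) : Set ℂ := {z | al M k0 ≤ z.re ∧ z.re ≤ 1 / 2 ∧ |z.im| ≤ d}

/-- The box around `t0`. -/
def Bx {m : ℕ} (t0 : Fin m → ℝ) (r : ℝ) : Set (Fin m → ℝ) :=
  Set.pi Set.univ fun j => Set.Icc (t0 j - r) (t0 j + r)

theorem isCompact_Bx {m : ℕ} (t0 : Fin m → ℝ) (r : ℝ) : IsCompact (Bx t0 r) :=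
  isCompact_univ_pi fun _ => isCompact_Icc

theorem measurableSet_Bx {m : ℕ} (t0 : Fin m → ℝ) (r : ℝ) : MeasurableSet (Bx t0 r) :=
  MeasurableSet.univ_pi fun _ => measurableSet_Icc

/-- Fubini for the box. -/
theorem fub {m : ℕ} (t0 : Fin (m + 1) → ℝ) {r : ℝ} (hr : 0 ≤ r) {f : (Fin (m + 1) → ℝ) → ℂ}
    (hf : ContinuousOn f (Bx t0 r)) :
    ∫ x in Bx t0 r, f x = ∫ t in (t0 0 - r)..(t0 0 + r), ∫ x in Bx (fun i => t0 i.succ) r, f (Fin.cons t x) ∧
    IntervalIntegrable (fun t => ∫ x in Bx (fun i => t0 i.succ) r, f (Fin.cons t x)) volume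
      (t0 0 - r) (t0 0 + r) := by
  have hmp := (MeasureTheory.volume_preserving_piFinSuccAbove (fun _ : Fin (m + 1) => ℝ) 0).symm
  have hemb : MeasurableEmbedding (MeasurableEquiv.piFinSuccAbove (fun _ : Fin (m + 1) => ℝ) 0).symm :=
    MeasurableEquiv.measurableEmbedding _
  have hcons : ∀ p : ℝ × (Fin m → ℝ), (MeasurableEquiv.piFinSuccAbove (fun _ : Fin (m + 1) => ℝ) 0).symm p =
      Fin.cons p.1 p.2 := by
    intro p
    simp [MeasurableEquiv.piFinSuccAbove, Fin.insertNthEquiv]
  have hset : (MeasurableEquiv.piFinSuccAbove (fun _ : Fin (m + 1) => ℝ) 0).symm ⁻¹' (Bx t0 r) =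
      Set.Icc (t0 0 - r) (t0 0 + r) ×ˢ Bx (fun i => t0 i.succ) r := by
    ext p
    rw [Set.mem_preimage, hcons]
    simp only [Bx, Set.mem_pi, Set.mem_univ, true_implies, Set.mem_prod]
    constructor
    · intro h
      exact ⟨by simpa using h 0, fun i => by simpa using h i.succ⟩
    · rintro ⟨h1, h2⟩ i
      refine Fin.cases ?_ (fun i => ?_) i
      · simpa using h1
      · simpa using h2 i
  have h1 := hmp.setIntegral_preimage_emb hemb f (Bx t0 r)
  rw [hset] at h1
  have hc : ContinuousOn (fun p : ℝ × (Fin m → ℝ) => f (Fin.cons p.1 p.2))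
      (Set.Icc (t0 0 - r) (t0 0 + r) ×ˢ Bx (fun i => t0 i.succ) r) := by
    refine hf.comp ?_ ?_
    · refine (continuous_pi fun i => ?_).continuousOn
      refine Fin.cases ?_ (fun i => ?_) i
      · simpa using continuous_fst
      · simp only [Fin.cons_succ]
        exact (continuous_apply i).comp continuous_snd
    · intro p hp
      have : p ∈ (MeasurableEquiv.piFinSuccAbove (fun _ : Fin (m + 1) => ℝ) 0).symm ⁻¹' (Bx t0 r) := by
        rw [hset]; exact hp
      rw [Set.mem_preimage, hcons] at this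
      exact this
  have hi : IntegrableOn (fun p : ℝ × (Fin m → ℝ) => f (Fin.cons p.1 p.2))
      (Set.Icc (t0 0 - r) (t0 0 + r) ×ˢ Bx (fun i => t0 i.succ) r) (volume.prod volume) := by
    have := hc.integrableOn_compact (μ := (volume : Measure (ℝ × (Fin m → ℝ))))
      (isCompact_Icc.prod (isCompact_Bx _ _))
    exact this
  have hab : t0 0 - r ≤ t0 0 + r := by linarith
  constructor
  · rw [← h1]
    simp only [hcons]
    rw [intervalIntegral.integral_of_le hab, ← integral_Icc_eq_integral_Ioc]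
    exact MeasureTheory.setIntegral_prod _ hi
  · rw [intervalIntegrable_iff_integrableOn_Icc_of_le hab]
    have h2 := hi
    unfold IntegrableOn at h2
    rw [← Measure.prod_restrict] at h2
    exact h2.integral_prod_left

/-- Sums over multi-indices. -/
theorem sum_cons {m : ℕ} (s : Finset ℕ) (g : (Fin (m + 1) → ℕ) → ℂ) :
    ∑ κ ∈ Fintype.piFinset (fun _ : Fin (m + 1) => s), g κ =
      ∑ k ∈ s, ∑ κ ∈ Fintype.piFinset (fun _ : Fin m => s), g (Fin.cons k κ) := by
  rw [← Finset.sum_product']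
  refine Finset.sum_bij' (fun κ _ => (κ 0, fun i => κ i.succ)) (fun p _ => Fin.cons p.1 p.2) ?_ ?_ ?_ ?_ ?_
  · intro κ hκ
    rw [Fintype.mem_piFinset] at hκ
    rw [Finset.mem_product, Fintype.mem_piFinset]
    exact ⟨hκ 0, fun i => hκ i.succ⟩
  · intro p hp
    rw [Finset.mem_product, Fintype.mem_piFinset] at hp
    rw [Fintype.mem_piFinset]
    intro i
    refine Fin.cases ?_ (fun i => ?_) i
    · simpa using hp.1
    · simpa using hp.2 i
  · intro κ _
    exact Fin.cons_self_tail κ
  · intro p _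
    simp
  · intro κ _
    congr 1
    exact (Fin.cons_self_tail κ).symm

variable {M k0 : ℕ} {d r : ℝ}

/-- The lattice points are in the domain. -/
theorem yR_mem (hM : 0 < M) (hd : 0 ≤ d) {k : ℕ} (hk : k ∈ Finset.Ico k0 M) :
    ((yR M k : ℝ) : ℂ) ∈ Dm M k0 d := by
  have hM0 : (0 : ℝ) < M := by exact_mod_cast hM
  rw [Finset.mem_Ico] at hk
  have h1 : (k0 : ℝ) ≤ k := by exact_mod_cast hk.1
  have h2 : (k : ℝ) + 1 ≤ M := by exact_mod_cast hk.2
  refine ⟨?_, ?_, ?_⟩
  · rw [ofReal_re]
    unfold al yR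
    gcongr
    linarith
  · rw [ofReal_re]
    unfold yR
    have : ((k : ℝ) + 1) / M ≤ 1 := by
      rw [div_le_one hM0]
      exact h2
    linarith
  · rw [ofReal_im, abs_zero]
    exact hd

/-- The points of the contour are in the domain. -/
theorem Pt.mem {η t0 : ℝ} (hM : k0 + 2 ≤ M) (hη : |η| ≤ d) {z : ℂ} {w : ℝ}
    (h : Pt M k0 d η t0 r z w) : z ∈ Dm M k0 d := by
  have hab := al_le_br hM
  have hb : br M < 1 / 2 := br_lt (by omega)
  have hd0 : 0 ≤ d := (abs_nonneg _).trans hη
  rcases h with ⟨-, h2, h3, -⟩ | ⟨-, h2, h3⟩ | ⟨-, h2, h3⟩ | ⟨-, h2, h3⟩ | ⟨-, h2⟩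
  · exact ⟨h3.1, h3.2.trans hb.le, by rw [h2]; exact hη⟩
  · refine ⟨?_, ?_, ?_⟩
    · rcases h2 with h2 | h2 <;> rw [h2]
      exact hab
    · rcases h2 with h2 | h2 <;> rw [h2]
      · linarith
      · linarith
    · have h5 := Set.mem_uIcc.1 h3
      rw [abs_le] at hη ⊢
      rcases h5 with h5 | h5 <;> constructor <;> linarith [hη.1, hη.2]
  · refine ⟨?_, ?_, h3⟩
    · rcases h2 with h2 | h2 <;> rw [h2]
      exact hab
    · rcases h2 with h2 | h2 <;> rw [h2]
      · linarith
      · linarith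
  · exact ⟨h3.1, h3.2.trans hb.le, h2.le⟩
  · rw [h2]
    refine ⟨?_, by norm_num, by simpa using hd0⟩
    have : ((1 : ℂ) / 2).re = 1 / 2 := by norm_num
    rw [this]
    linarith

/-- The properties of the terms. -/
structure TOK {m : ℕ} (M k0 : ℕ) (d : ℝ) (T : (Fin m → ℂ) → ℂ) : Prop where
  cont : ContinuousOn T {z | ∀ i, z i ∈ Dm M k0 d}
  diff : ∀ z : Fin m → ℂ, (∀ i, z i ∈ Dm M k0 d) → ∀ j, (z j).re ≤ br M →
    DifferentiableAt ℂ (fun w => T (Function.update z j w)) (z j)

theorem TOK.cons {m : ℕ} {T : (Fin (m + 1) → ℂ) → ℂ} (h : TOK M k0 d T) {z : ℂ} (hz : z ∈ Dm M k0 d) :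
    TOK M k0 d (fun x : Fin m → ℂ => T (Fin.cons z x)) := by
  refine ⟨?_, ?_⟩
  · refine h.cont.comp ?_ ?_
    · refine (continuous_pi fun i => ?_).continuousOn
      refine Fin.cases ?_ (fun i => ?_) i
      · simpa using continuous_const
      · simpa using continuous_apply i
    · intro x hx i
      refine Fin.cases ?_ (fun i => ?_) i
      · simpa using hz
      · simpa using hx i
  · intro x hx j hj
    have h1 := h.diff (Fin.cons z x) (by
      intro i
      refine Fin.cases ?_ (fun i => ?_) i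
      · simpa using hz
      · simpa using hx i) j.succ (by simpa using hj)
    have e : ∀ w, Function.update (Fin.cons z x : Fin (m + 1) → ℂ) j.succ w = Fin.cons z (Function.update x j w) := by
      intro w
      rw [Fin.cons_update]
    simp only [e, Fin.cons_succ] at h1
    exact h1

theorem TOK.diff0 {m : ℕ} {T : (Fin (m + 1) → ℂ) → ℂ} (h : TOK M k0 d T) {x : Fin m → ℂ}
    (hx : ∀ i, x i ∈ Dm M k0 d) {z : ℂ} (hz : z ∈ Dm M k0 d) (hz1 : z.re ≤ br M) :
    DifferentiableAt ℂ (fun w => T (Fin.cons w x)) z := by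
  have h1 := h.diff (Fin.cons z x) (by
    intro i
    refine Fin.cases ?_ (fun i => ?_) i
    · simpa using hz
    · simpa using hx i) 0 (by simpa using hz1)
  simpa using h1

/-- The sum is bounded by the terms on the contours. -/
theorem multi_le (hM : k0 + 2 ≤ M) (hd : 1 ≤ M * d) : ∀ (m : ℕ) (η t0 : Fin m → ℝ),
    (∀ j, |η j| ≤ d) → (∀ j, al M k0 ≤ t0 j) → (∀ j, t0 j ≤ br M) → ∀ (T : (Fin m → ℂ) → ℂ) (S : ℝ),
    TOK M k0 d T →
    (∀ (z : Fin m → ℂ) (w : Fin m → ℝ), (∀ j, Pt M k0 d (η j) (t0 j) 0 (z j) (w j)) →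
      ‖T z‖ ≤ S * Real.exp (M * ∑ j, w j)) →
    ‖∑ κ ∈ Fintype.piFinset (fun _ : Fin m => Finset.Ico k0 M), T (fun j => (yR M (κ j) : ℝ))‖ ≤
      (12 * (1 + d) * M) ^ m * S := by
  have hMpos : 0 < M := by omega
  have hM0 : (0 : ℝ) < M := by exact_mod_cast hMpos
  have hd0 : 0 ≤ d := by
    by_contra h
    push Not at h
    have := mul_neg_of_pos_of_neg hM0 h
    linarith
  intro m
  induction m with
  | zero =>
    intro η t0 _ _ _ T S _ hB
    have h := hB Fin.elim0 Fin.elim0 (fun j => j.elim0)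
    simp only [Finset.univ_eq_empty, Finset.sum_empty, mul_zero, Real.exp_zero, mul_one] at h
    simp only [pow_zero, one_mul]
    rw [Fintype.piFinset_of_isEmpty, Finset.univ_unique, Finset.sum_singleton]
    have e : ∀ g : Fin 0 → ℂ, T g = T Fin.elim0 := fun g => congrArg T (funext fun j => j.elim0)
    rw [e]
    exact h
  | succ m ih =>
    intro η t0 hη ht1 ht2 T S hT hB
    rw [sum_cons]
    have e0 : ∀ k : ℕ, ∑ κ ∈ Fintype.piFinset (fun _ : Fin m => Finset.Ico k0 M),
        T (fun j => (yR M ((Fin.cons k κ : Fin (m + 1) → ℕ) j) : ℝ)) =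
        (fun z : ℂ => ∑ κ ∈ Fintype.piFinset (fun _ : Fin m => Finset.Ico k0 M),
          T (Fin.cons z (fun j => (yR M (κ j) : ℝ)))) (yR M k : ℝ) := by
      intro k
      refine Finset.sum_congr rfl fun κ _ => ?_
      congr 1
      funext j
      refine Fin.cases ?_ (fun j => ?_) j <;> simp
    simp only [e0]
    have h1 := rect (F := fun z : ℂ => ∑ κ ∈ Fintype.piFinset (fun _ : Fin m => Finset.Ico k0 M),
        T (Fin.cons z (fun j => (yR M (κ j) : ℝ)))) (S := (12 * (1 + d) * M) ^ m * S) (t0 := t0 0)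
      hM (hη 0) hd le_rfl (by rw [sub_zero]; exact ht1 0) (by rw [add_zero]; exact ht2 0) ?_ ?_
    · simp only [sub_zero, add_zero, intervalIntegral.integral_same, mul_zero] at h1
      refine h1.trans (le_of_eq ?_)
      ring
    · intro z hz1 hz2 hz3
      refine DifferentiableAt.fun_sum fun κ hκ => ?_
      rw [Fintype.mem_piFinset] at hκ
      exact hT.diff0 (fun i => yR_mem hMpos hd0 (hκ i)) ⟨hz1, hz2.trans (br_lt hMpos).le, hz3⟩ hz2
    · intro z w hz
      have h2 := ih (fun j => η j.succ) (fun j => t0 j.succ) (fun j => hη j.succ) (fun j => ht1 j.succ)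
        (fun j => ht2 j.succ) (fun x => T (Fin.cons z x)) (S * Real.exp (M * w))
        (hT.cons (hz.mem hM (hη 0))) (by
          intro z' w' h'
          have h3 := hB (Fin.cons z z') (Fin.cons w w') (by
            intro j
            refine Fin.cases ?_ (fun j => ?_) j
            · simpa using hz
            · simpa using h' j)
          rw [Fin.sum_univ_succ] at h3
          simp only [Fin.cons_zero, Fin.cons_succ] at h3
          rw [mul_assoc, ← Real.exp_add, ← mul_add]
          exact h3)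
      refine h2.trans (le_of_eq ?_)
      ring

/-- The sum is the integral over the product of the flat contours near `t0`, up to the terms on the
rest of the contours. -/
theorem multi (hM : k0 + 2 ≤ M) (hd : 1 ≤ M * d) (hr : 0 ≤ r) : ∀ (m : ℕ) (η t0 : Fin m → ℝ),
    (∀ j, |η j| ≤ d) → (∀ j, al M k0 ≤ t0 j - r) → (∀ j, t0 j + r ≤ br M) → ∀ (T : (Fin m → ℂ) → ℂ) (S : ℝ),
    0 ≤ S → TOK M k0 d T →
    (∀ (z : Fin m → ℂ) (w : Fin m → ℝ), (∀ j, Pt M k0 d (η j) (t0 j) 0 (z j) (w j)) →
      (∃ j, Pt M k0 d (η j) (t0 j) r (z j) (w j)) → ‖T z‖ ≤ S * Real.exp (M * ∑ j, w j)) →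
    ‖(∑ κ ∈ Fintype.piFinset (fun _ : Fin m => Finset.Ico k0 M), T (fun j => (yR M (κ j) : ℝ))) -
      M ^ m * ∫ x in Bx t0 r, T (fun j => x j + η j * I)‖ ≤ m * (12 * (1 + d) * M) ^ m * S := by
  have hMpos : 0 < M := by omega
  have hM0 : (0 : ℝ) < M := by exact_mod_cast hMpos
  have hd0 : 0 ≤ d := by
    by_contra h
    push Not at h
    have := mul_neg_of_pos_of_neg hM0 h
    linarith
  intro m
  induction m with
  | zero =>
    intro η t0 _ _ _ T S _ _ _
    have e1 : (Bx t0 r) = Set.univ := by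
      ext x
      simp [Bx]
    have e2 : ∫ x in Bx t0 r, T (fun j => x j + η j * I) = T Fin.elim0 := by
      rw [e1, Measure.restrict_univ, MeasureTheory.volume_pi, MeasureTheory.Measure.pi_of_empty,
        integral_dirac]
      congr 1
      funext j
      exact j.elim0
    rw [e2, Fintype.piFinset_of_isEmpty, Finset.univ_unique, Finset.sum_singleton]
    simp only [pow_zero, one_mul, CharP.cast_eq_zero, zero_mul]
    rw [norm_le_zero_iff, sub_eq_zero]
    congr 1
    funext j
    exact j.elim0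
  | succ m ih =>
    intro η t0 hη ht1 ht2 T S hS hT hB
    have hab := al_le_br hM
    have h2r : 2 * r ≤ 1 := by
      have h1 := ht1 0
      have h2 := ht2 0
      have h3 : br M < 1 / 2 := br_lt hMpos
      have h4 : -1 / 2 ≤ al M k0 := by
        rw [al_eq]
        have : 0 ≤ ((k0 : ℝ) + 1 / 2) / M := by positivity
        linarith
      linarith
    rw [sum_cons]
    set Ψ : ℂ → ℂ := fun z : ℂ => ∑ κ ∈ Fintype.piFinset (fun _ : Fin m => Finset.Ico k0 M),
          T (Fin.cons z (fun j => (yR M (κ j) : ℝ))) with hΨ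
    have e0 : ∀ k : ℕ, ∑ κ ∈ Fintype.piFinset (fun _ : Fin m => Finset.Ico k0 M),
        T (fun j => (yR M ((Fin.cons k κ : Fin (m + 1) → ℕ) j) : ℝ)) = Ψ (yR M k : ℝ) := by
      intro k
      refine Finset.sum_congr rfl fun κ _ => ?_
      congr 1
      funext j
      refine Fin.cases ?_ (fun j => ?_) j <;> simp
    simp only [e0]
    have hΨd : ∀ z : ℂ, al M k0 ≤ z.re → z.re ≤ br M → |z.im| ≤ d → DifferentiableAt ℂ Ψ z := by
      intro z hz1 hz2 hz3
      refine DifferentiableAt.fun_sum fun κ hκ => ?_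
      rw [Fintype.mem_piFinset] at hκ
      exact hT.diff0 (fun i => yR_mem hMpos hd0 (hκ i)) ⟨hz1, hz2.trans (br_lt hMpos).le, hz3⟩ hz2
    have h1 := rect (F := Ψ) (S := (12 * (1 + d) * M) ^ m * S)
      hM (hη 0) hd hr (ht1 0) (ht2 0) hΨd (by
        intro z w hz
        have h2 := multi_le hM hd m (fun j => η j.succ) (fun j => t0 j.succ) (fun j => hη j.succ)
          (fun j => by linarith [ht1 j.succ])
          (fun j => by linarith [ht2 j.succ]) (fun x => T (Fin.cons z x)) (S * Real.exp (M * w))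
          (hT.cons (hz.mem hM (hη 0))) (by
            intro z' w' h'
            have h3 := hB (Fin.cons z z') (Fin.cons w w') (by
              intro j
              refine Fin.cases ?_ (fun j => ?_) j
              · simpa using hz.mono hr
              · simpa using h' j) ⟨0, by simpa using hz⟩
            rw [Fin.sum_univ_succ] at h3
            simp only [Fin.cons_zero, Fin.cons_succ] at h3
            rw [mul_assoc, ← Real.exp_add, ← mul_add]
            exact h3)
        refine h2.trans (le_of_eq ?_)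
        ring)
    -- the integral
    have hmem : ∀ x : Fin (m + 1) → ℝ, x ∈ Bx t0 r → ∀ i, ((x i : ℂ) + η i * I) ∈ Dm M k0 d := by
      intro x hx i
      have h := hx i (Set.mem_univ i)
      refine ⟨?_, ?_, ?_⟩
      · simp only [add_re, ofReal_re, mul_re, I_re, mul_zero, ofReal_im, I_im, mul_one, sub_zero, add_zero]
        linarith [h.1, ht1 i]
      · simp only [add_re, ofReal_re, mul_re, I_re, mul_zero, ofReal_im, I_im, mul_one, sub_zero, add_zero]
        have h3 : br M < 1 / 2 := br_lt hMpos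
        linarith [h.2, ht2 i]
      · simp only [add_im, ofReal_im, mul_im, ofReal_re, I_im, mul_one, I_re, mul_zero, add_zero, zero_add]
        exact hη i
    have hcontF : ContinuousOn (fun x : Fin (m + 1) → ℝ => T (fun j => x j + η j * I)) (Bx t0 r) := by
      refine hT.cont.comp ?_ hmem
      refine (continuous_pi fun i => ?_).continuousOn
      fun_prop
    obtain ⟨hfub, hfubi⟩ := fub t0 hr hcontF
    have e3 : ∀ (t : ℝ) (x : Fin m → ℝ), (fun j : Fin (m + 1) =>
        (((Fin.cons t x : Fin (m + 1) → ℝ) j : ℝ) : ℂ) + η j * I) =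
        Fin.cons ((t : ℂ) + η 0 * I) (fun j => (x j : ℂ) + η j.succ * I) := by
      intro t x
      funext j
      refine Fin.cases ?_ (fun j => ?_) j <;> simp
    simp only [e3] at hfub hfubi
    have hΨi : IntervalIntegrable (fun t : ℝ => Ψ ((t : ℂ) + η 0 * I)) volume (t0 0 - r) (t0 0 + r) := by
      refine ContinuousOn.intervalIntegrable ?_
      rw [Set.uIcc_of_le (by linarith)]
      intro t ht
      have h7 : DifferentiableAt ℂ Ψ ((t : ℂ) + η 0 * I) := by
        refine hΨd _ ?_ ?_ ?_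
        · simp only [add_re, ofReal_re, mul_re, I_re, mul_zero, ofReal_im, I_im, mul_one, sub_zero, add_zero]
          linarith [ht.1, ht1 0]
        · simp only [add_re, ofReal_re, mul_re, I_re, mul_zero, ofReal_im, I_im, mul_one, sub_zero, add_zero]
          linarith [ht.2, ht2 0]
        · simp only [add_im, ofReal_im, mul_im, ofReal_re, I_im, mul_one, I_re, mul_zero, add_zero, zero_add]
          exact hη 0
      have h8 : ContinuousAt (fun x : ℝ => (x : ℂ) + η 0 * I) t := by fun_prop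
      exact (ContinuousAt.comp (f := fun x : ℝ => (x : ℂ) + η 0 * I) (g := Ψ) h7.continuousAt
        h8).continuousWithinAt
    have hdiff : ∀ t ∈ Set.uIoc (t0 0 - r) (t0 0 + r), ‖Ψ ((t : ℂ) + η 0 * I) -
        M ^ m * ∫ x in Bx (fun i => t0 i.succ) r,
          T (Fin.cons ((t : ℂ) + η 0 * I) (fun j => (x j : ℂ) + η j.succ * I))‖ ≤
        m * (12 * (1 + d) * M) ^ m * S := by
      intro t ht
      rw [Set.uIoc_of_le (by linarith)] at ht
      have hp : Pt M k0 d (η 0) (t0 0) 0 ((t : ℂ) + η 0 * I) 0 := by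
        refine Or.inl ⟨rfl, ?_, ?_, ?_⟩
        · simp
        · simp only [add_re, ofReal_re, mul_re, I_re, mul_zero, ofReal_im, I_im, mul_one, sub_zero, add_zero]
          exact ⟨by linarith [ht.1, ht1 0], by linarith [ht.2, ht2 0]⟩
        · exact abs_nonneg _
      exact ih (fun j => η j.succ) (fun j => t0 j.succ) (fun j => hη j.succ) (fun j => ht1 j.succ)
        (fun j => ht2 j.succ) (fun x => T (Fin.cons ((t : ℂ) + η 0 * I) x)) S hS
        (hT.cons (hp.mem hM (hη 0))) (by
          rintro z' w' h' ⟨j, hj⟩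
          have h3 := hB (Fin.cons ((t : ℂ) + η 0 * I) z') (Fin.cons 0 w') (by
            intro j
            refine Fin.cases ?_ (fun j => ?_) j
            · simpa using hp
            · simpa using h' j) ⟨j.succ, by simpa using hj⟩
          rw [Fin.sum_univ_succ] at h3
          simp only [Fin.cons_zero, Fin.cons_succ, zero_add] at h3
          exact h3)
    have h4 := intervalIntegral.norm_integral_le_of_norm_le_const hdiff
    rw [intervalIntegral.integral_sub hΨi (hfubi.const_mul _), intervalIntegral.integral_const_mul,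
      ← hfub, show t0 0 + r - (t0 0 - r) = 2 * r by ring, abs_of_nonneg (by linarith)] at h4
    have h5 : (∑ k ∈ Finset.Ico k0 M, Ψ (yR M k : ℝ)) - M ^ (m + 1) * ∫ x in Bx t0 r, T (fun j => x j + η j * I) =
        ((∑ k ∈ Finset.Ico k0 M, Ψ (yR M k : ℝ)) - M * ∫ t in (t0 0 - r)..(t0 0 + r), Ψ ((t : ℂ) + η 0 * I)) +
        M * ((∫ t in (t0 0 - r)..(t0 0 + r), Ψ ((t : ℂ) + η 0 * I)) -
          M ^ m * ∫ x in Bx t0 r, T (fun j => x j + η j * I)) := by
      ring
    rw [h5]
    set K : ℝ := (12 * (1 + d) * M) ^ m with hK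
    have hK0 : 0 ≤ K := by positivity
    have h9 : ‖(M : ℂ) * ((∫ t in (t0 0 - r)..(t0 0 + r), Ψ ((t : ℂ) + η 0 * I)) -
          M ^ m * ∫ x in Bx t0 r, T (fun j => x j + η j * I))‖ ≤ M * (m * K * S * (2 * r)) := by
      rw [norm_mul, norm_natCast]
      exact mul_le_mul_of_nonneg_left h4 hM0.le
    have h6 : (M : ℝ) * (m * K * S * (2 * r)) ≤ 12 * (1 + d) * M * (m * K * S) := by
      have h7 : (0 : ℝ) ≤ m * K * S := by positivity
      have h8 : (M : ℝ) * (2 * r) ≤ 12 * (1 + d) * M := by nlinarith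
      calc (M : ℝ) * (m * K * S * (2 * r)) = M * (2 * r) * (m * K * S) := by ring
        _ ≤ _ := mul_le_mul_of_nonneg_right h8 h7
    refine (norm_add_le_of_le h1 h9).trans ?_
    push_cast
    rw [pow_succ, ← hK]
    calc 12 * (1 + d) * M * (K * S) + (M : ℝ) * (m * K * S * (2 * r))
        ≤ 12 * (1 + d) * M * (K * S) + 12 * (1 + d) * M * (m * K * S) := by linarith
      _ = _ := by ring

end Pool.Agent.S5
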